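import Pool.Agent.K9h61.CL.All

/-!
# Random cubic graphs are 2-weakly Cockayne-Lorimer

The answer to Q1 of MP_76d27f_co is YES: there is `ε > 0` such that `ρ_2(G) ≥ 1 + ε` for all but a
vanishing fraction of the cubic graphs `G` on `2 m` labelled vertices, as `m → ∞`.

Proof.  Suppose that the edges of a cubic graph with `2 m` vertices are coloured red and blue, with
at most `a ≤ (1 + ε) m / 2` edges in every red and in every blue matching.  The Tutte-Berge formula
gives in each colour a set `A` and disjoint odd sets `O`, closed outside `A`, such that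
`|A| + ∑ (|O| - 1) / 2 + |rest| / 2 ≤ a + 1/2`.  An edge of this colour meets `A`, or lies in some
`O` or in the rest.  As most cubic graphs are edge expanders and have few small odd sets with at
most three boundary edges, a set `O` contains at most `(3 - 1/900) (|O| - 1) / 2` edges, whereas a
vertex of `A` meets 3 edges.  As all the `3 m` edges must be covered, almost all of them meet
`S = A_red ∪ A_blue` and `|S| ≤ 2 a + 1`: so the graph is close to bipartite, which most cubic graphs
are not.  Hence `G → (a + 1, a + 1) K₂` with `Λ + 1 = 2 a + 1 > (1 + ε / 2) m ≥ (1 + ε / 2) ν(G)`.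
-/

set_option autoImplicit false

open scoped Classical

namespace Pool.Agent.Results.MP_76d27f_co.RandomCubicGraphs

/-- `M` is a matching: its edges are pairwise disjoint. -/
def IsMatching {V : Type*} (M : Finset (Sym2 V)) : Prop :=
  ∀ e ∈ M, ∀ f ∈ M, e ≠ f → ∀ v : V, ¬ (v ∈ e ∧ v ∈ f)

/-- The matching number `ν(G)`: the largest number of edges of a matching of `G`. -/
noncomputable def nu {V : Type*} (G : SimpleGraph V) : ℕ :=
  sSup {k : ℕ | ∃ M : Finset (Sym2 V), (∀ e ∈ M, e ∈ G.edgeSet) ∧ IsMatching M ∧ M.card = k}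

/-- `G → t K₂`: for every colouring of the edges of `G` with the colours in `Fin q` there is a
colour `j` with a matching of `t j` edges all of colour `j`. -/
def Arrow {V : Type*} {q : ℕ} (G : SimpleGraph V) (t : Fin q → ℕ) : Prop :=
  ∀ c : G.edgeSet → Fin q, ∃ j : Fin q, ∃ M : Finset (Sym2 V),
    (∀ e ∈ M, ∃ h : e ∈ G.edgeSet, c ⟨e, h⟩ = j) ∧ IsMatching M ∧ M.card = t j

/-- `ρ_q(G) = (1 / ν(G)) sup (Λ_t + 1)`, over the vectors `t` of `q` positive integers with
`G → t K₂`, where `Λ_t = ∑ (t_i - 1)`. -/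
noncomputable def rho {V : Type*} (q : ℕ) (G : SimpleGraph V) : ℝ :=
  sSup {x : ℝ | ∃ t : Fin q → ℕ, (∀ i, 1 ≤ t i) ∧ Arrow G t ∧ x = (∑ i, ((t i : ℝ) - 1)) + 1}
    / (nu G : ℝ)

/-- The cubic graphs on the vertices `0, …, n - 1`. -/
noncomputable def cubicGraphs (n : ℕ) : Finset (SimpleGraph (Fin n)) :=
  Finset.univ.filter (fun G => ∀ v, (Finset.univ.filter (fun w => G.Adj v w)).card = 3)

theorem cubicGraphs_eq (n : ℕ) : cubicGraphs n = H994K.cub (Fin n) := by
  ext G
  rw [H994K.mem_cub]
  unfold cubicGraphs H994K.Cubic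
  rw [Finset.mem_filter]
  constructor
  · rintro ⟨_, h⟩ v
    have h1 := h v
    convert h1
  · intro h
    refine ⟨Finset.mem_univ _, fun v => ?_⟩
    have h1 := h v
    convert h1

theorem card_cubicGraphs (m : ℕ) : (cubicGraphs (2 * m)).card = H994K.gg m := by
  rw [cubicGraphs_eq]
  rfl

theorem result : ∃ ε : ℝ, 0 < ε ∧
    Filter.Tendsto (fun m : ℕ =>
      (((cubicGraphs (2 * m)).filter (fun G => 1 + ε ≤ rho 2 G)).card : ℝ) /
        ((cubicGraphs (2 * m)).card : ℝ))
      Filter.atTop (nhds 1) := by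
  obtain ⟨ε, hε, h⟩ := K9h61.CL.main
  refine ⟨ε, hε, ?_⟩
  refine h.congr (fun m => ?_)
  rw [card_cubicGraphs, cubicGraphs_eq]
  congr 2

end Pool.Agent.Results.MP_76d27f_co.RandomCubicGraphs
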